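import Pool.Agent.Helper3.RT.Danger

/-! The folding lemma of `Helper3/RT/Danger.lean` without the hypothesis on the degree of `v`
(MP_e4665f_co). -/

set_option autoImplicit false

namespace Pool.Agent.Helper28.ML

open SimpleGraph Pool.Agent.Helper3.RT

variable {V : Type*} [Fintype V] [DecidableEq V]

/-- the position map of a rainbow copy -/
structure Fold2 (H : SimpleGraph V) (w v l u : V) (L : Finset V) (φ : V → V) : Prop where
  adj_wv : H.Adj w v
  adj_vl : H.Adj v l
  wl : w ≠ l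
  nlw : 1 < (nb H w).card
  hL : ∀ a ∈ L, H.Adj u a ∧ ∀ x, H.Adj a x → x = u
  hom : ∀ x y, x ∉ L → y ∉ L → H.Adj x y → H.Adj (φ x) (φ y)
  phu : φ u = w
  huw : u ≠ w
  av : ∀ a, a ∉ L → φ a ≠ v
  alf : ∀ a, a ∉ L → φ a ∉ lf H w
  coll : ∀ a a', a ∉ L → a' ∉ L → a ≠ a' → φ a = φ a' → H.Adj u a ∧ H.Adj u a' ∧
    (∀ n, H.Adj n a → H.Adj n a' → n = u) ∧
    ∀ c c', c ∉ L → c' ∉ L → c ≠ c' → φ c = φ c' → (c = a ∧ c' = a') ∨ (c = a' ∧ c' = a)
  bri : ∀ y, H.Adj w y → ¬ (H \ fromEdgeSet {s(w, y)}).Reachable w y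
  hN : ∀ u b, H.Adj w u → H.Adj u b → b ≠ w → 1 < (nb H b).card →
    (∀ x, H.Adj b x → x ≠ u → (nb H x).card = 1) →
    (lf H u).card < (lf H w).card + ((nb H b).card - 1)
  conn : H.Connected

namespace Fold2

variable {H : SimpleGraph V} {w v l u : V} {L : Finset V} {φ : V → V}

theorem nl_iff {x : V} : 1 < (nb H x).card ↔ ∃ y y', H.Adj x y ∧ H.Adj x y' ∧ y ≠ y' := by
  rw [Finset.one_lt_card]
  constructor
  · rintro ⟨y, hy, y', hy', hne⟩
    exact ⟨y, y', mem_nb.1 hy, mem_nb.1 hy', hne⟩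
  · rintro ⟨y, y', hy, hy', hne⟩
    exact ⟨y, mem_nb.2 hy, y', mem_nb.2 hy', hne⟩

theorem leaf_unique {x y y' : V} (h : ¬ 1 < (nb H x).card) (hy : H.Adj x y) (hy' : H.Adj x y') :
    y = y' := by
  by_contra hne
  exact h (nl_iff.2 ⟨y, y', hy, hy', hne⟩)

theorem nb_pos (hH : H.Connected) {x y : V} (hxy : x ≠ y) : 0 < (nb H x).card := by
  rw [Finset.card_pos]
  obtain ⟨p⟩ := hH.preconnected x y
  cases p with
  | nil => exact absurd rfl hxy
  | cons h _ => exact ⟨_, mem_nb.2 h⟩

variable (F : Fold2 H w v l u L φ)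

include F

theorem nl_v : 1 < (nb H v).card := nl_iff.2 ⟨w, l, F.adj_wv.symm, F.adj_vl, F.wl⟩

theorem leaf_card {x : V} (h : ¬ 1 < (nb H x).card) : (nb H x).card = 1 := by
  have h1 : 0 < (nb H x).card := by
    by_cases hx : x = w
    · subst hx
      exact nb_pos F.conn F.wl
    · exact nb_pos F.conn hx
  omega

theorem nl_notL {x : V} (h : 1 < (nb H x).card) : x ∉ L := by
  intro hx
  obtain ⟨y, y', hy, hy', hne⟩ := nl_iff.1 h
  have h1 := (F.hL x hx).2
  exact hne ((h1 y hy).trans (h1 y' hy').symm)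

theorem nbr_notL {x y : V} (hx : x ≠ u) (h : H.Adj x y) : y ∉ L := fun hy =>
  hx ((F.hL y hy).2 x h.symm)

theorem nl_phi {x : V} (h : 1 < (nb H x).card) : 1 < (nb H (φ x)).card := by
  by_cases hx : x = u
  · rw [hx, F.phu]
    exact F.nlw
  · obtain ⟨y, y', hy, hy', hne⟩ := nl_iff.1 h
    have h1 := F.nbr_notL hx hy
    have h2 := F.nbr_notL hx hy'
    have h3 := F.nl_notL h
    refine nl_iff.2 ⟨φ y, φ y', F.hom _ _ h3 h1 hy, F.hom _ _ h3 h2 hy', fun h4 => hx ?_⟩
    exact (F.coll y y' h1 h2 hne h4).2.2.1 x hy hy'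

theorem nl_iter {x : V} (h : 1 < (nb H x).card) (n : ℕ) : 1 < (nb H (φ^[n] x)).card := by
  induction n with
  | zero => exact h
  | succ n ih =>
    rw [Function.iterate_succ_apply']
    exact F.nl_phi ih

theorem adj_iter {x y : V} (hx : 1 < (nb H x).card) (hy : 1 < (nb H y).card) (h : H.Adj x y)
    (n : ℕ) : H.Adj (φ^[n] x) (φ^[n] y) := by
  induction n with
  | zero => exact h
  | succ n ih =>
    rw [Function.iterate_succ_apply', Function.iterate_succ_apply']
    exact F.hom _ _ (F.nl_notL (F.nl_iter hx n)) (F.nl_notL (F.nl_iter hy n)) ih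

/-- degrees do not decrease outside `u` -/
theorem deg_le {x : V} (hx : 1 < (nb H x).card) (hxu : x ≠ u) :
    (nb H x).card ≤ (nb H (φ x)).card := by
  refine Finset.card_le_card_of_injOn φ ?_ ?_
  · intro y hy
    have hy' := mem_nb.1 hy
    exact mem_nb.2 (F.hom _ _ (F.nl_notL hx) (F.nbr_notL hxu hy') hy')
  · intro y hy y' hy' he
    by_contra hne
    have h1 := mem_nb.1 hy
    have h2 := mem_nb.1 hy'
    exact hxu ((F.coll y y' (F.nbr_notL hxu h1) (F.nbr_notL hxu h2) hne he).2.2.1 x h1 h2)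

/-- the last step: `w` and `u` are exchanged -/
theorem final {b : V} (hwu : φ w = u) (hb : φ b = u) (hbw : b ≠ w) (hnb : 1 < (nb H b).card) :
    False := by
  have hw := F.nlw
  have hwL := F.nl_notL hw
  have hbL := F.nl_notL hnb
  obtain ⟨huw, hub, hcom, huniq⟩ := F.coll w b hwL hbL (Ne.symm hbw) (hwu.trans hb.symm)
  have hnu : 1 < (nb H u).card := nl_iff.2 ⟨w, b, huw, hub, Ne.symm hbw⟩
  have huL := F.nl_notL hnu
  have hnv := F.nl_v
  have hbu : b ≠ u := hub.ne'
  have hnwb : ¬ H.Adj w b := by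
    intro h
    have := F.hom _ _ hwL hbL h
    rw [hwu, hb] at this
    exact this.ne rfl
  have huv : u ≠ v := by
    rintro rfl
    exact F.av w hwL hwu
  -- injectivity away from the pair
  have hinj : ∀ c c', c ∉ L → c' ∉ L → c ≠ b → c' ≠ b → φ c = φ c' → c = c' := by
    intro c c' h1 h2 h3 h4 h5
    by_contra h6
    rcases huniq c c' h1 h2 h6 h5 with ⟨_, h7⟩ | ⟨h7, _⟩
    · exact h4 h7
    · exact h3 h7
  have hinj2 : ∀ c c', c ∉ L → c' ∉ L → c ≠ w → c' ≠ w → φ c = φ c' → c = c' := by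
    intro c c' h1 h2 h3 h4 h5
    by_contra h6
    rcases huniq c c' h1 h2 h6 h5 with ⟨h7, _⟩ | ⟨_, h7⟩
    · exact h3 h7
    · exact h4 h7
  have hLw : ∀ c, H.Adj w c → c ∉ L := fun c hc => F.nbr_notL (Ne.symm F.huw) hc
  have hLb : ∀ c, H.Adj b c → c ∉ L := fun c hc => F.nbr_notL hbu hc
  have hphw : ∀ c, c ∉ L → c ≠ u → φ c ≠ w := by
    intro c hc hcu h
    rw [← F.phu] at h
    rcases huniq c u hc huL hcu h with ⟨_, h7⟩ | ⟨_, h7⟩
    · exact hbu h7.symm
    · exact F.huw h7
  -- the sets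
  set W1 := (nb H w).erase u with hW1
  set B1 := (nb H b).erase u with hB1
  set U1 := (nb H u).erase w with hU1
  set R := (U1.erase b) \ L with hR
  have hmW : ∀ c ∈ W1, H.Adj w c ∧ c ≠ u := by
    intro c hc
    rw [hW1, Finset.mem_erase, mem_nb] at hc
    exact ⟨hc.2, hc.1⟩
  have hmB : ∀ c ∈ B1, H.Adj b c ∧ c ≠ u := by
    intro c hc
    rw [hB1, Finset.mem_erase, mem_nb] at hc
    exact ⟨hc.2, hc.1⟩
  have hmR : ∀ c ∈ R, H.Adj u c ∧ c ≠ w ∧ c ≠ b ∧ c ∉ L := by
    intro c hc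
    rw [hR, hU1, Finset.mem_sdiff, Finset.mem_erase, Finset.mem_erase, mem_nb] at hc
    exact ⟨hc.1.2.2, hc.1.2.1, hc.1.1, hc.2⟩
  have hWB : Disjoint W1 B1 := by
    rw [Finset.disjoint_left]
    intro c h1 h2
    exact (hmW c h1).2 (hcom c (hmW c h1).1.symm (hmB c h2).1.symm)
  have hWBinj : ∀ c ∈ W1 ∪ B1, ∀ c' ∈ W1 ∪ B1, φ c = φ c' → c = c' := by
    have key : ∀ c ∈ W1 ∪ B1, c ∉ L ∧ c ≠ b := by
      intro c hc
      rcases Finset.mem_union.1 hc with h | h
      · refine ⟨hLw c (hmW c h).1, ?_⟩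
        rintro rfl
        exact hnwb (hmW c h).1
      · exact ⟨hLb c (hmB c h).1, (hmB c h).1.ne'⟩
    intro c hc c' hc' he
    exact hinj c c' (key c hc).1 (key c' hc').1 (key c hc).2 (key c' hc').2 he
  have hWBmap : ∀ c ∈ W1 ∪ B1, φ c ∈ U1 := by
    intro c hc
    have h1 : c ∉ L ∧ c ≠ u ∧ H.Adj u (φ c) := by
      rcases Finset.mem_union.1 hc with h | h
      · refine ⟨hLw c (hmW c h).1, (hmW c h).2, ?_⟩
        rw [← hwu]
        exact F.hom _ _ hwL (hLw c (hmW c h).1) (hmW c h).1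
      · refine ⟨hLb c (hmB c h).1, (hmB c h).2, ?_⟩
        rw [← hb]
        exact F.hom _ _ hbL (hLb c (hmB c h).1) (hmB c h).1
    rw [hU1, Finset.mem_erase, mem_nb]
    exact ⟨hphw c h1.1 h1.2.1, h1.2.2⟩
  have hRmap : ∀ c ∈ R, H.Adj w (φ c) ∧ φ c ≠ u ∧ φ c ≠ v ∧ φ c ∉ lf H w := by
    intro c hc
    obtain ⟨h1, h2, h3, h4⟩ := hmR c hc
    refine ⟨?_, ?_, F.av c h4, F.alf c h4⟩
    · rw [← F.phu]
      exact F.hom _ _ huL h4 h1
    · intro h
      have := hinj c w h4 hwL h3 (Ne.symm hbw) (h.trans hwu.symm)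
      exact h2 this
  have hRinj : ∀ c ∈ R, ∀ c' ∈ R, φ c = φ c' → c = c' := by
    intro c hc c' hc' he
    exact hinj c c' (hmR c hc).2.2.2 (hmR c' hc').2.2.2 (hmR c hc).2.2.1 (hmR c' hc').2.2.1 he
  -- cardinalities
  have c1 : W1.card + B1.card ≤ U1.card := by
    rw [← Finset.card_union_of_disjoint hWB]
    exact Finset.card_le_card_of_injOn φ hWBmap hWBinj
  have cW : W1.card + 1 = (nb H w).card := by
    rw [hW1]
    exact Finset.card_erase_add_one (mem_nb.2 huw.symm)
  have cB : B1.card + 1 = (nb H b).card := by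
    rw [hB1]
    exact Finset.card_erase_add_one (mem_nb.2 hub.symm)
  have hbU : b ∈ U1 := by
    rw [hU1, Finset.mem_erase, mem_nb]
    exact ⟨hbw, hub⟩
  have hLU : L ⊆ U1.erase b := by
    intro a ha
    rw [Finset.mem_erase, hU1, Finset.mem_erase, mem_nb]
    refine ⟨?_, ?_, (F.hL a ha).1⟩
    · rintro rfl
      exact hbL ha
    · rintro rfl
      exact hwL ha
  have cR : R.card + L.card + 1 = U1.card := by
    rw [hR, Finset.card_sdiff_add_card_eq_card hLU]
    exact Finset.card_erase_add_one hbU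
  have hlfW : lf H w ⊆ W1.erase v := by
    intro a ha
    rw [mem_lf] at ha
    rw [Finset.mem_erase, hW1, Finset.mem_erase, mem_nb]
    refine ⟨?_, ?_, ha.1⟩
    · rintro rfl
      omega
    · rintro rfl
      omega
  have hvW : v ∈ W1 := by
    rw [hW1, Finset.mem_erase, mem_nb]
    exact ⟨Ne.symm huv, F.adj_wv⟩
  have c2 : R.card + (lf H w).card + 1 ≤ W1.card := by
    have h1 : R.card ≤ ((W1.erase v) \ lf H w).card := by
      refine Finset.card_le_card_of_injOn φ ?_ hRinj
      intro c hc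
      obtain ⟨h1, h2, h3, h4⟩ := hRmap c hc
      rw [Finset.mem_coe, Finset.mem_sdiff, Finset.mem_erase, hW1, Finset.mem_erase, mem_nb]
      exact ⟨⟨h3, h2, h1⟩, h4⟩
    have h2 := Finset.card_sdiff_add_card_eq_card hlfW
    have h3 := Finset.card_erase_add_one hvW
    omega
  have c3 : L.card ≤ (lf H u).card := by
    refine Finset.card_le_card ?_
    intro a ha
    rw [mem_lf]
    refine ⟨(F.hL a ha).1, ?_⟩
    apply F.leaf_card
    intro h
    exact F.nl_notL h ha
  -- non-leaves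
  have d1 : (W1.filter (fun c => 1 < (nb H c).card)).card +
      (B1.filter (fun c => 1 < (nb H c).card)).card ≤
      1 + (R.filter (fun c => 1 < (nb H c).card)).card := by
    rw [← Finset.card_union_of_disjoint (Finset.disjoint_filter_filter hWB)]
    have h1 : (W1.filter (fun c => 1 < (nb H c).card) ∪ B1.filter (fun c => 1 < (nb H c).card)).card
        ≤ (insert b (R.filter (fun c => 1 < (nb H c).card))).card := by
      refine Finset.card_le_card_of_injOn φ ?_ ?_
      · intro c hc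
        rw [Finset.mem_coe, ← Finset.filter_union, Finset.mem_filter] at hc
        have h2 := hWBmap c hc.1
        have h3 := F.nl_phi hc.2
        rw [Finset.mem_coe, Finset.mem_insert, Finset.mem_filter]
        by_cases h4 : φ c = b
        · exact Or.inl h4
        · refine Or.inr ⟨?_, h3⟩
          rw [hR, Finset.mem_sdiff, Finset.mem_erase]
          exact ⟨⟨h4, h2⟩, F.nl_notL h3⟩
      · intro c hc c' hc' he
        rw [Finset.mem_coe, ← Finset.filter_union, Finset.mem_filter] at hc hc'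
        exact hWBinj c hc.1 c' hc'.1 he
    refine h1.trans ((Finset.card_insert_le _ _).trans (by omega))
  have d2 : (R.filter (fun c => 1 < (nb H c).card)).card + 1 ≤
      (W1.filter (fun c => 1 < (nb H c).card)).card := by
    have h1 : (R.filter (fun c => 1 < (nb H c).card)).card ≤
        ((W1.filter (fun c => 1 < (nb H c).card)).erase v).card := by
      refine Finset.card_le_card_of_injOn φ ?_ ?_
      · intro c hc
        rw [Finset.mem_coe, Finset.mem_filter] at hc
        obtain ⟨h1, h2, h3, h4⟩ := hRmap c hc.1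
        rw [Finset.mem_coe, Finset.mem_erase, Finset.mem_filter, hW1, Finset.mem_erase, mem_nb]
        exact ⟨h3, ⟨h2, h1⟩, F.nl_phi hc.2⟩
      · intro c hc c' hc' he
        rw [Finset.mem_coe, Finset.mem_filter] at hc hc'
        exact hRinj c hc.1 c' hc'.1 he
    have h2 : v ∈ W1.filter (fun c => 1 < (nb H c).card) := Finset.mem_filter.2 ⟨hvW, hnv⟩
    have h3 := Finset.card_erase_add_one h2
    omega
  have d3 : (B1.filter (fun c => 1 < (nb H c).card)).card = 0 := by omega
  rw [Finset.card_eq_zero] at d3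
  have h5 := F.hN u b huw.symm hub hbw hnb (by
    intro x hx hxu
    apply F.leaf_card
    intro h
    have : x ∈ B1.filter (fun c => 1 < (nb H c).card) := by
      rw [Finset.mem_filter, hB1, Finset.mem_erase, mem_nb]
      exact ⟨⟨hxu, hx⟩, h⟩
    rw [d3] at this
    simp at this)
  omega

/-- a rainbow copy through the hub is impossible -/
theorem contra : False := by
  obtain ⟨K, hK, hidem⟩ := exists_idem φ
  obtain ⟨K', rfl⟩ : ∃ K', K = K' + 1 := ⟨K - 1, by omega⟩
  have fxphi : ∀ x, φ^[K' + 1] x = x → φ^[K' + 1] (φ x) = φ x := by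
    intro x hx
    rw [← Function.iterate_succ_apply, Function.iterate_succ_apply', hx]
  have fxit : ∀ n x, φ^[K' + 1] x = x → φ^[K' + 1] (φ^[n] x) = φ^[n] x := by
    intro n x hx
    rw [← Function.iterate_add_apply, add_comm, Function.iterate_add_apply, hx]
  have fxmul : ∀ n x, φ^[K' + 1] x = x → φ^[(K' + 1) * n] x = x := by
    intro n x hx
    rw [Function.iterate_mul]
    exact Function.iterate_fixed hx n
  have finj : ∀ x y, φ^[K' + 1] x = x → φ^[K' + 1] y = y → φ x = φ y → x = y := by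
    intro x y hx hy h
    rw [← hx, ← hy, Function.iterate_succ_apply, Function.iterate_succ_apply, h]
  have finjit : ∀ n x y, φ^[K' + 1] x = x → φ^[K' + 1] y = y → φ^[n] x = φ^[n] y → x = y := by
    intro n
    induction n with
    | zero => intro x y _ _ h; exact h
    | succ n ih =>
      intro x y hx hy h
      rw [Function.iterate_succ_apply, Function.iterate_succ_apply] at h
      exact finj x y hx hy (ih _ _ (fxphi x hx) (fxphi y hy) h)
  have hnv := F.nl_v
  have hnw := F.nlw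
  have hvfix : φ^[K' + 1] v ≠ v := by
    rw [Function.iterate_succ_apply']
    exact F.av _ (F.nl_notL (F.nl_iter hnv K'))
  -- the last non-periodic point of the orbit of `v`
  have hex : ∃ n, φ^[K' + 1] (φ^[n + 1] v) = φ^[n + 1] v := ⟨K', hidem v⟩
  obtain ⟨i, hi, himin⟩ : ∃ i, φ^[K' + 1] (φ^[i + 1] v) = φ^[i + 1] v ∧
      φ^[K' + 1] (φ^[i] v) ≠ φ^[i] v := by
    classical
    refine ⟨Nat.find hex, Nat.find_spec hex, ?_⟩
    rcases Nat.eq_zero_or_pos (Nat.find hex) with h0 | h0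
    · rw [h0]
      exact hvfix
    · have := Nat.find_min hex (m := Nat.find hex - 1) (by omega)
      rwa [show Nat.find hex - 1 + 1 = Nat.find hex by omega] at this
  obtain ⟨b2, hb2⟩ : ∃ b2, b2 = φ^[i] v := ⟨_, rfl⟩
  obtain ⟨y, hy⟩ : ∃ y, y = φ^[i + 1] v := ⟨_, rfl⟩
  obtain ⟨b1, hb1⟩ : ∃ b1, b1 = φ^[K'] y := ⟨_, rfl⟩
  rw [← hy] at hi
  rw [← hb2] at himin
  have hnb2 : 1 < (nb H b2).card := by rw [hb2]; exact F.nl_iter hnv i
  have hny : 1 < (nb H y).card := by rw [hy]; exact F.nl_iter hnv (i + 1)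
  have hnb1 : 1 < (nb H b1).card := by rw [hb1]; exact F.nl_iter hny K'
  have hphb2 : φ b2 = y := by rw [hb2, hy, Function.iterate_succ_apply']
  have hphb1 : φ b1 = y := by rw [hb1, ← Function.iterate_succ_apply' φ K' y, hi]
  have hb1fix : φ^[K' + 1] b1 = b1 := by rw [hb1]; exact fxit K' y hi
  have hb12 : b1 ≠ b2 := by
    rintro rfl
    exact himin hb1fix
  obtain ⟨hub1, hub2, hcom, huniq⟩ := F.coll b1 b2 (F.nl_notL hnb1) (F.nl_notL hnb2) hb12
    (hphb1.trans hphb2.symm)
  have hnu : 1 < (nb H u).card := nl_iff.2 ⟨b1, b2, hub1, hub2, hb12⟩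
  have hnb12 : ¬ H.Adj b1 b2 := by
    intro h
    have := F.hom _ _ (F.nl_notL hnb1) (F.nl_notL hnb2) h
    rw [hphb1, hphb2] at this
    exact this.ne rfl
  -- non-periodic points
  have key : ∀ x, 1 < (nb H x).card → φ^[K' + 1] x ≠ x → φ^[K' + 1] (φ x) = φ x → x = b2 := by
    intro x hx hx1 hx2
    have h1 : φ (φ^[K'] (φ x)) = φ x := by rw [← Function.iterate_succ_apply' φ K' (φ x), hx2]
    have h2 : φ^[K' + 1] (φ^[K'] (φ x)) = φ^[K'] (φ x) := fxit K' _ hx2
    have h3 : x ≠ φ^[K'] (φ x) := by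
      intro h
      rw [← h] at h2
      exact hx1 h2
    rcases huniq x _ (F.nl_notL hx) (F.nl_notL (F.nl_iter (F.nl_phi hx) K')) h3 h1.symm with
      ⟨h4, _⟩ | ⟨h4, _⟩
    · rw [h4] at hx1
      exact absurd hb1fix hx1
    · exact h4
  have back : ∀ x x', 1 < (nb H x).card → 1 < (nb H x').card → φ x = φ x' →
      φ^[K' + 1] (φ x) ≠ φ x → x = x' := by
    intro x x' hx hx' h hn
    by_contra hne
    rcases huniq x x' (F.nl_notL hx) (F.nl_notL hx') hne h with ⟨h4, _⟩ | ⟨h4, _⟩
    · rw [h4, hphb1] at hn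
      exact hn hi
    · rw [h4, hphb2] at hn
      exact hn hi
  have backit : ∀ n x x', 1 < (nb H x).card → 1 < (nb H x').card → φ^[n] x = φ^[n] x' →
      φ^[K' + 1] (φ^[n] x) ≠ φ^[n] x → x = x' := by
    intro n
    induction n with
    | zero => intro x x' _ _ h _; exact h
    | succ n ih =>
      intro x x' hx hx' h hn
      rw [Function.iterate_succ_apply' φ n, Function.iterate_succ_apply' φ n] at h
      rw [Function.iterate_succ_apply' φ n] at hn
      refine ih x x' hx hx' (back _ _ (F.nl_iter hx n) (F.nl_iter hx' n) h hn) ?_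
      intro h5
      exact hn (fxphi _ h5)
  -- `φ^i w` is periodic
  have hwi : φ^[K' + 1] (φ^[i] w) = φ^[i] w := by
    by_contra hcon
    have hex2 : ∃ n, φ^[K' + 1] (φ^[n + 1] (φ^[i] w)) = φ^[n + 1] (φ^[i] w) :=
      ⟨K', hidem _⟩
    obtain ⟨j, hj, hjmin⟩ : ∃ j, φ^[K' + 1] (φ^[j + 1] (φ^[i] w)) = φ^[j + 1] (φ^[i] w) ∧
        φ^[K' + 1] (φ^[j] (φ^[i] w)) ≠ φ^[j] (φ^[i] w) := by
      classical
      refine ⟨Nat.find hex2, Nat.find_spec hex2, ?_⟩
      rcases Nat.eq_zero_or_pos (Nat.find hex2) with h0 | h0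
      · rw [h0]
        exact hcon
      · have := Nat.find_min hex2 (m := Nat.find hex2 - 1) (by omega)
        rwa [show Nat.find hex2 - 1 + 1 = Nat.find hex2 by omega] at this
    rw [Function.iterate_succ_apply' φ j] at hj
    have h1 := key _ (F.nl_iter (F.nl_iter hnw i) j) hjmin hj
    have h2 : φ^[i] (φ^[j] w) = φ^[i] v := by
      rw [← hb2, ← h1, ← Function.iterate_add_apply, ← Function.iterate_add_apply, add_comm]
    have h3 : φ^[j] w = v := by
      refine backit i _ _ (F.nl_iter hnw j) hnv h2 ?_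
      rw [h2, ← hb2]
      exact himin
    cases j with
    | zero => exact F.adj_wv.ne h3
    | succ j =>
      rw [Function.iterate_succ_apply'] at h3
      exact F.av _ (F.nl_notL (F.nl_iter hnw j)) h3
  have hwiu : φ^[i] w = u := by
    refine hcom _ ?_ ?_
    · have h1 := F.adj_iter (F.nl_iter hnw i) (F.nl_iter hnv i) (F.adj_iter hnw hnv F.adj_wv i)
        (K' + 1)
      rw [hwi, ← hb2, Function.iterate_succ_apply, hphb2, ← hb1] at h1
      exact h1
    · rw [hb2]
      exact F.adj_iter hnw hnv F.adj_wv i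
  have hufix : φ^[K' + 1] u = u := by rw [← hwiu]; exact hwi
  have hwfix : φ^[K' + 1] w = w := by
    have := fxphi u hufix
    rwa [F.phu] at this
  -- `u` is in the orbit of `y`
  obtain ⟨t, ht⟩ : ∃ t, φ^[t] y = u := by
    by_contra hcon
    push Not at hcon
    have h1 : ∀ t, (nb H y).card ≤ (nb H (φ^[t] y)).card := by
      intro t
      induction t with
      | zero => exact le_rfl
      | succ t ih =>
        rw [Function.iterate_succ_apply']
        exact ih.trans (F.deg_le (F.nl_iter hny t) (hcon t))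
    have h2 := h1 K'
    rw [← hb1] at h2
    have hb1u : b1 ≠ u := hub1.ne'
    have hb2u : b2 ≠ u := hub2.ne'
    have hdis : Disjoint (nb H b1) ((nb H b2).erase u) := by
      rw [Finset.disjoint_left]
      intro c hc hc'
      rw [Finset.mem_erase, mem_nb] at hc'
      exact hc'.1 (hcom c (mem_nb.1 hc).symm hc'.2.symm)
    have h3 : (nb H b1 ∪ (nb H b2).erase u).card ≤ (nb H y).card := by
      have hm : ∀ c ∈ nb H b1 ∪ (nb H b2).erase u, c ∉ L ∧ c ≠ b1 ∧ c ≠ b2 ∧ H.Adj y (φ c) := by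
        intro c hc
        rw [Finset.mem_union, Finset.mem_erase, mem_nb, mem_nb] at hc
        rcases hc with hc | hc
        · have h4 := F.nbr_notL hb1u hc
          refine ⟨h4, hc.ne', ?_, ?_⟩
          · rintro rfl
            exact hnb12 hc
          · rw [← hphb1]
            exact F.hom _ _ (F.nl_notL hnb1) h4 hc
        · have h4 := F.nbr_notL hb2u hc.2
          refine ⟨h4, ?_, hc.2.ne', ?_⟩
          · rintro rfl
            exact hnb12 hc.2.symm
          · rw [← hphb2]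
            exact F.hom _ _ (F.nl_notL hnb2) h4 hc.2
      refine Finset.card_le_card_of_injOn φ ?_ ?_
      · intro c hc
        exact mem_nb.2 (hm c hc).2.2.2
      · intro c hc c' hc' he
        by_contra hne
        rcases huniq c c' (hm c hc).1 (hm c' hc').1 hne he with ⟨h5, _⟩ | ⟨h5, _⟩
        · exact (hm c hc).2.1 h5
        · exact (hm c hc).2.2.1 h5
    rw [Finset.card_union_of_disjoint hdis] at h3
    have h4 := Finset.card_erase_add_one (mem_nb.2 hub2.symm : u ∈ nb H b2)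
    omega
  -- the power `ψ` of `φ` with `ψ u = b1`
  obtain ⟨m, hm⟩ : ∃ m, φ^[m] u = b1 := by
    refine ⟨K' * (t + 1), ?_⟩
    rw [← ht, ← Function.iterate_add_apply, show K' * (t + 1) + t = K' + (K' + 1) * t by ring,
      Function.iterate_add_apply, fxmul t y hi, ← hb1]
  have hmw : φ^[m] w = y := by
    rw [← F.phu, ← Function.iterate_succ_apply, Function.iterate_succ_apply', hm, hphb1]
  have hwy : H.Adj w y := by
    have := F.hom _ _ (F.nl_notL hnu) (F.nl_notL hnb1) hub1
    rwa [F.phu, hphb1] at this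
  have hbri := F.bri y hwy
  have hadjG : ∀ x x', H.Adj x x' → s(x, x') ≠ s(w, y) →
      (H \ fromEdgeSet {s(w, y)}).Adj x x' := by
    intro x x' h1 h2
    rw [SimpleGraph.sdiff_adj, SimpleGraph.fromEdgeSet_adj]
    exact ⟨h1, fun h3 => h2 h3.1⟩
  have hmy : φ^[m] y = w := by
    have hex3 : ∃ r, 1 ≤ r ∧ φ^[m * r] w = w := by
      refine ⟨K' + 1, by omega, ?_⟩
      rw [mul_comm]
      exact fxmul m w hwfix
    obtain ⟨r, ⟨hr1, hr2⟩, hrmin⟩ : ∃ r, (1 ≤ r ∧ φ^[m * r] w = w) ∧
        ∀ s, s < r → ¬ (1 ≤ s ∧ φ^[m * s] w = w) := by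
      classical
      exact ⟨Nat.find hex3, Nat.find_spec hex3, fun s hs => Nat.find_min hex3 hs⟩
    have hstep : ∀ s, H.Adj (φ^[m * s] w) (φ^[m * (s + 1)] w) := by
      intro s
      have := F.adj_iter hnw hny hwy (m * s)
      rwa [← hmw, ← Function.iterate_add_apply, show m * s + m = m * (s + 1) by ring] at this
    obtain ⟨r', rfl⟩ : ∃ r', r = r' + 1 := ⟨r - 1, by omega⟩
    have hr' : 1 ≤ r' := by
      by_contra h0
      have h0' : r' = 0 := by omega
      subst h0'
      rw [zero_add, mul_one, hmw] at hr2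
      exact hwy.ne hr2.symm
    have hreach : ∀ s, 1 ≤ s → s ≤ r' → (H \ fromEdgeSet {s(w, y)}).Reachable y (φ^[m * s] w) := by
      intro s hs
      induction s, hs using Nat.le_induction with
      | base =>
        intro _
        rw [mul_one, hmw]
      | succ s hs ih =>
        intro hs2
        refine (ih (by omega)).trans (SimpleGraph.Adj.reachable ?_)
        refine hadjG _ _ (hstep s) ?_
        intro h3
        have h4 : w ∈ s(φ^[m * s] w, φ^[m * (s + 1)] w) := by
          rw [h3]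
          simp
        rw [Sym2.mem_iff] at h4
        rcases h4 with h4 | h4
        · exact hrmin s (by omega) ⟨hs, h4.symm⟩
        · exact hrmin (s + 1) (by omega) ⟨by omega, h4.symm⟩
    have hlast : φ^[m * r'] w = y := by
      by_contra hne
      apply hbri
      refine ((hreach r' hr' le_rfl).trans (SimpleGraph.Adj.reachable ?_)).symm
      refine hadjG _ _ ?_ ?_
      · have := hstep r'
        rwa [hr2] at this
      · intro h3
        rw [Sym2.eq_iff] at h3
        rcases h3 with ⟨h3, h4⟩ | ⟨h3, _⟩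
        · exact hwy.ne h4
        · exact hne h3
    rw [← hlast, ← Function.iterate_add_apply, show m + m * r' = m * (r' + 1) by ring, hr2]
  -- the graph on the periodic points without the bridge
  let G2 : SimpleGraph V :=
    { Adj := fun x x' => H.Adj x x' ∧ (1 < (nb H x).card ∧ φ^[K' + 1] x = x) ∧
        (1 < (nb H x').card ∧ φ^[K' + 1] x' = x') ∧ s(x, x') ≠ s(w, y)
      symm := ⟨fun x x' h => ⟨h.1.symm, h.2.2.1, h.2.1, by
        rw [Sym2.eq_swap]
        exact h.2.2.2⟩⟩
      loopless := ⟨fun x h => h.1.ne rfl⟩ }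
  have hG2 : ∀ x x', G2.Adj x x' ↔ H.Adj x x' ∧ (1 < (nb H x).card ∧ φ^[K' + 1] x = x) ∧
        (1 < (nb H x').card ∧ φ^[K' + 1] x' = x') ∧ s(x, x') ≠ s(w, y) := fun x x' => Iff.rfl
  have hG2le : G2 ≤ H \ fromEdgeSet {s(w, y)} := by
    intro x x' h
    exact hadjG _ _ h.1 h.2.2.2
  have hnr : ¬ G2.Reachable w y := fun h => hbri (h.mono hG2le)
  have hC : ∀ x x', (G2.Reachable w x ∨ G2.Reachable y x) → H.Adj x x' →
      (1 < (nb H x).card ∧ φ^[K' + 1] x = x) → (1 < (nb H x').card ∧ φ^[K' + 1] x' = x') →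
      (G2.Reachable w x' ∨ G2.Reachable y x') := by
    intro x x' hx h h1 h2
    by_cases h3 : s(x, x') = s(w, y)
    · rw [Sym2.eq_iff] at h3
      rcases h3 with ⟨_, h3⟩ | ⟨_, h3⟩
      · rw [h3]
        exact Or.inr (SimpleGraph.Reachable.refl _)
      · rw [h3]
        exact Or.inl (SimpleGraph.Reachable.refl _)
    · have h4 : G2.Adj x x' := ⟨h, h1, h2, h3⟩
      rcases hx with hx | hx
      · exact Or.inl (hx.trans h4.reachable)
      · exact Or.inr (hx.trans h4.reachable)
  have hwalk : ∀ x, H.Reachable w x → ∀ x', 1 < (nb H x').card →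
      (x' = x ∨ (¬ 1 < (nb H x).card ∧ H.Adj x x')) →
      (G2.Reachable w (φ^[K' + 1] x') ∨ G2.Reachable y (φ^[K' + 1] x')) := by
    intro x hx
    rw [SimpleGraph.reachable_iff_reflTransGen] at hx
    induction hx with
    | refl =>
      intro x' hx' h
      rcases h with rfl | ⟨h, _⟩
      · rw [hwfix]
        exact Or.inl (SimpleGraph.Reachable.refl _)
      · exact absurd hnw h
    | @tail x z _ hxz ih =>
      intro z' hz' h
      rcases h with rfl | ⟨h, h'⟩
      · by_cases hnx : 1 < (nb H x).card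
        · exact hC _ _ (ih x hnx (Or.inl rfl)) (F.adj_iter hnx hz' hxz (K' + 1))
            ⟨F.nl_iter hnx _, hidem x⟩ ⟨F.nl_iter hz' _, hidem z'⟩
        · exact ih z' hz' (Or.inr ⟨hnx, hxz⟩)
      · have h1 : z' = x := leaf_unique h h' hxz.symm
        exact ih z' hz' (Or.inl h1)
  have hCu : G2.Reachable w u ∨ G2.Reachable y u := by
    have := hwalk u (F.conn.preconnected w u) u hnu (Or.inl rfl)
    rwa [hufix] at this
  have hyfix := hi
  let Ψ : G2 →g G2 :=
    { toFun := φ^[m]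
      map_rel' := by
        intro x x' h
        refine ⟨F.adj_iter h.2.1.1 h.2.2.1.1 h.1 m, ⟨F.nl_iter h.2.1.1 m, fxit m x h.2.1.2⟩,
          ⟨F.nl_iter h.2.2.1.1 m, fxit m x' h.2.2.1.2⟩, ?_⟩
        intro h3
        apply h.2.2.2
        rw [Sym2.eq_iff] at h3 ⊢
        rcases h3 with ⟨h3, h4⟩ | ⟨h3, h4⟩
        · right
          exact ⟨finjit m _ _ h.2.1.2 hyfix (h3.trans hmy.symm),
            finjit m _ _ h.2.2.1.2 hwfix (h4.trans hmw.symm)⟩
        · left
          exact ⟨finjit m _ _ h.2.1.2 hwfix (h3.trans hmw.symm),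
            finjit m _ _ h.2.2.1.2 hyfix (h4.trans hmy.symm)⟩ }
  have hΨ : ∀ x x', G2.Reachable x x' → G2.Reachable (φ^[m] x) (φ^[m] x') := by
    intro x x' h
    exact h.map Ψ
  by_cases he : s(u, b1) = s(w, y)
  · rw [Sym2.eq_iff] at he
    rcases he with ⟨h1, _⟩ | ⟨h1, h2⟩
    · exact F.huw h1
    · subst h1
      subst h2
      exact F.final hphb1 hphb2 (Ne.symm hb12) hnb2
  · have h4 : G2.Adj u b1 := ⟨hub1, ⟨hnu, hufix⟩, ⟨hnb1, hb1fix⟩, he⟩
    rcases hCu with h5 | h5
    · have h6 := hΨ _ _ h5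
      rw [hmw, hm] at h6
      exact hnr ((h5.trans h4.reachable).trans h6.symm)
    · have h6 := hΨ _ _ h5
      rw [hmy, hm] at h6
      exact hnr ((h6.trans h4.symm.reachable).trans h5.symm)

end Fold2

end Pool.Agent.Helper28.ML
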